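import Pool.Agent.StrG.BohP

/-! UNIFORM ALMOST ALL (helper76): the group of the maps `x ↦ a + d x`, `a, d` rational, `d > 0`. -/

set_option autoImplicit false

namespace Pool.Agent.UA

open Finset Filter Topology Pool.Agent.StrG

/-- the map `x ↦ a + d x` -/
@[ext] structure Af where
  /-- constant term -/
  a : ℚ
  /-- slope -/
  d : ℚ
  /-- the slope is positive -/
  pos : 0 < d

namespace Af

/-- composition -/
def mul (x y : Af) : Af := ⟨x.a + x.d * y.a, x.d * y.d, mul_pos x.pos y.pos⟩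

/-- identity -/
def one : Af := ⟨0, 1, one_pos⟩

/-- inverse map -/
def inv (x : Af) : Af := ⟨-(x.a / x.d), x.d⁻¹, inv_pos.2 x.pos⟩

instance : Group Af where
  mul := mul
  one := one
  inv := inv
  mul_assoc x y z := by
    ext
    · show (x.a + x.d * y.a) + (x.d * y.d) * z.a = x.a + x.d * (y.a + y.d * z.a)
      ring
    · show (x.d * y.d) * z.d = x.d * (y.d * z.d)
      ring
  one_mul x := by
    ext
    · show (0 : ℚ) + 1 * x.a = x.a
      ring
    · show (1 : ℚ) * x.d = x.d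
      ring
  mul_one x := by
    ext
    · show x.a + x.d * 0 = x.a
      ring
    · show x.d * 1 = x.d
      ring
  inv_mul_cancel x := by
    ext
    · show -(x.a / x.d) + x.d⁻¹ * x.a = 0
      ring
    · show x.d⁻¹ * x.d = 1
      exact inv_mul_cancel₀ x.pos.ne'

theorem mul_a (x y : Af) : (x * y).a = x.a + x.d * y.a := rfl
theorem mul_d (x y : Af) : (x * y).d = x.d * y.d := rfl
theorem one_a : (1 : Af).a = 0 := rfl
theorem one_d : (1 : Af).d = 1 := rfl
theorem inv_a (x : Af) : (x⁻¹).a = -(x.a / x.d) := rfl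
theorem inv_d (x : Af) : (x⁻¹).d = x.d⁻¹ := rfl

end Af

/-- the map `x ↦ h + s x` with integers `h`, `s > 0` -/
def af (h : ℤ) (s : ℕ) : Af := if hs : 0 < s then ⟨h, s, by exact_mod_cast hs⟩ else 1

theorem af_a (h : ℤ) {s : ℕ} (hs : 0 < s) : (af h s).a = h := by
  unfold af
  rw [dif_pos hs]

theorem af_d (h : ℤ) {s : ℕ} (hs : 0 < s) : (af h s).d = s := by
  unfold af
  rw [dif_pos hs]

theorem af_mul (h h' : ℤ) {s s' : ℕ} (hs : 0 < s) (hs' : 0 < s') : af h s * af h' s' = af (h + s * h') (s * s') := by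
  ext
  · rw [Af.mul_a, af_a h hs, af_d h hs, af_a h' hs', af_a _ (Nat.mul_pos hs hs')]
    push_cast
    ring
  · rw [Af.mul_d, af_d h hs, af_d h' hs', af_d _ (Nat.mul_pos hs hs')]
    push_cast
    ring

/-- the integer maps -/
def SZ : Set Af := {x | ∃ (h : ℤ) (s : ℕ), 0 < s ∧ x = af h s}

theorem closure_SZ : Subgroup.closure SZ = ⊤ := by
  rw [eq_top_iff]
  intro x _
  obtain ⟨c, hc⟩ : ∃ c : ℕ, c = x.a.den * x.d.den := ⟨_, rfl⟩
  have hc0 : 0 < c := by
    rw [hc]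
    exact Nat.mul_pos x.a.den_pos x.d.den_pos
  have hda : (x.a.den : ℚ) ≠ 0 := by exact_mod_cast x.a.den_pos.ne'
  have hdd : (x.d.den : ℚ) ≠ 0 := by exact_mod_cast x.d.den_pos.ne'
  have e1 : (c : ℚ) * x.a = ((x.d.den : ℤ) * x.a.num : ℤ) := by
    have h1 : (x.a.den : ℚ) * x.a = x.a.num := Rat.den_mul_eq_num x.a
    rw [hc]
    push_cast
    calc (x.a.den : ℚ) * x.d.den * x.a = x.d.den * ((x.a.den : ℚ) * x.a) := by ring
      _ = x.d.den * x.a.num := by rw [h1]
  have hnum : 0 < x.d.num := Rat.num_pos.2 x.pos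
  have e2 : (c : ℚ) * x.d = ((x.a.den * x.d.num.toNat : ℕ) : ℚ) := by
    have h1 : (x.d.den : ℚ) * x.d = x.d.num := Rat.den_mul_eq_num x.d
    have h2 : ((x.d.num.toNat : ℕ) : ℚ) = x.d.num := by
      have h3 : ((x.d.num.toNat : ℕ) : ℤ) = x.d.num := Int.toNat_of_nonneg hnum.le
      exact_mod_cast congrArg (fun z : ℤ => (z : ℚ)) h3
    rw [hc]
    push_cast
    rw [h2]
    calc (x.a.den : ℚ) * x.d.den * x.d = x.a.den * ((x.d.den : ℚ) * x.d) := by ring
      _ = x.a.den * x.d.num := by rw [h1]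
  have hs : 0 < x.a.den * x.d.num.toNat := Nat.mul_pos x.a.den_pos (by omega)
  have h1 : af 0 c * x = af ((x.d.den : ℤ) * x.a.num) (x.a.den * x.d.num.toNat) := by
    ext
    · rw [Af.mul_a, af_a 0 hc0, af_d 0 hc0, af_a _ hs, e1]
      push_cast
      ring
    · rw [Af.mul_d, af_d 0 hc0, af_d _ hs, e2]
  have h2 : x = (af 0 c)⁻¹ * af ((x.d.den : ℤ) * x.a.num) (x.a.den * x.d.num.toNat) := by
    rw [← h1, inv_mul_cancel_left]
  rw [h2]
  exact mul_mem (inv_mem (Subgroup.subset_closure ⟨0, c, hc0, rfl⟩)) (Subgroup.subset_closure ⟨_, _, hs, rfl⟩)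

/-- translation -/
def tau (a : ℚ) : Af := ⟨a, 1, one_pos⟩

/-- dilation -/
def del (d : ℚ) (hd : 0 < d) : Af := ⟨0, d, hd⟩

theorem eq_tau_del (x : Af) : x = tau x.a * del x.d x.pos := by
  ext
  · rw [Af.mul_a]
    show x.a = x.a + 1 * 0
    ring
  · rw [Af.mul_d]
    show x.d = 1 * x.d
    ring

theorem tau_add (a b : ℚ) : tau a * tau b = tau (a + b) := by
  ext
  · rw [Af.mul_a]
    show a + 1 * b = a + b
    ring
  · rw [Af.mul_d]
    show (1 : ℚ) * 1 = 1
    ring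

theorem tau_inv (a : ℚ) : (tau a)⁻¹ = tau (-a) := by
  rw [inv_eq_iff_mul_eq_one, tau_add]
  ext
  · show a + -a = 0
    ring
  · rfl

theorem del_conj (a s : ℚ) (hs : 0 < s) : del s hs * tau a * (del s hs)⁻¹ = tau (s * a) := by
  rw [mul_inv_eq_iff_eq_mul]
  ext
  · rw [Af.mul_a, Af.mul_a]
    show 0 + s * a = s * a + 1 * 0
    ring
  · rw [Af.mul_d, Af.mul_d]
    show s * 1 = 1 * s
    ring

end Pool.Agent.UA
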