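import Pool.Agent.AA.Fol

/-! UNIFORM ALMOST ALL (helper76): the divisors of `M ^ n` are multiplicatively almost invariant. -/

set_option autoImplicit false

namespace Pool.Agent.UA

open Finset Filter Topology Pool.Agent.AA

private theorem fol_prime {N p X : ℕ} (hN : N ≠ 0) (hp : p.Prime) (hX : N.factorization p = X) :
    ((N.divisors.filter fun e => p * e ∉ N.divisors).card : ℕ) * (X + 1) ≤ N.divisors.card := by
  have key : ∀ e ∈ N.divisors.filter (fun e => p * e ∉ N.divisors), e ∣ N ∧ e.factorization p = X := by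
    intro e he
    rw [Finset.mem_filter, Nat.mem_divisors, Nat.mem_divisors] at he
    obtain ⟨⟨he1, _⟩, he2⟩ := he
    have he0 : e ≠ 0 := fun h => hN (by rw [h] at he1; exact Nat.eq_zero_of_zero_dvd he1)
    refine ⟨he1, ?_⟩
    have hle : e.factorization p ≤ X := by
      rw [← hX]
      exact (Nat.factorization_le_iff_dvd he0 hN).2 he1 p
    by_contra hne
    have hlt : e.factorization p < X := lt_of_le_of_ne hle hne
    apply he2
    refine ⟨?_, hN⟩
    rw [← Nat.factorization_le_iff_dvd (mul_ne_zero hp.ne_zero he0) hN]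
    rw [Nat.factorization_mul hp.ne_zero he0, hp.factorization]
    intro q
    simp only [Finsupp.coe_add, Pi.add_apply]
    by_cases hq : q = p
    · subst hq
      simp only [Finsupp.single_eq_same]
      omega
    · rw [Finsupp.single_apply, if_neg (fun h => hq h.symm), zero_add]
      exact (Nat.factorization_le_iff_dvd he0 hN).2 he1 q
  have hinj : ((N.divisors.filter fun e => p * e ∉ N.divisors) ×ˢ range (X + 1)).card ≤ N.divisors.card := by
    apply Finset.card_le_card_of_injOn (fun t => t.1 / p ^ t.2)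
    · intro t ht
      rw [Finset.mem_coe, Finset.mem_product] at ht
      rw [Finset.mem_coe, Nat.mem_divisors]
      obtain ⟨h1, h2⟩ := key t.1 ht.1
      exact ⟨(Nat.div_dvd_of_dvd (((hp.pow_dvd_iff_le_factorization (fun h => hN (by
        rw [h] at h1; exact Nat.eq_zero_of_zero_dvd h1))).2 (by
          rw [h2]; exact Nat.lt_succ_iff.1 (Finset.mem_range.1 ht.2))))).trans h1, hN⟩
    · intro t ht t' ht' htt
      rw [Finset.mem_coe, Finset.mem_product] at ht ht'
      obtain ⟨h1, h2⟩ := key t.1 ht.1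
      obtain ⟨h1', h2'⟩ := key t'.1 ht'.1
      have hne : t.1 ≠ 0 := fun h => hN (by rw [h] at h1; exact Nat.eq_zero_of_zero_dvd h1)
      have hne' : t'.1 ≠ 0 := fun h => hN (by rw [h] at h1'; exact Nat.eq_zero_of_zero_dvd h1')
      have hd : p ^ t.2 ∣ t.1 := (hp.pow_dvd_iff_le_factorization hne).2 (by
          rw [h2]; exact Nat.lt_succ_iff.1 (Finset.mem_range.1 ht.2))
      have hd' : p ^ t'.2 ∣ t'.1 := (hp.pow_dvd_iff_le_factorization hne').2 (by
          rw [h2']; exact Nat.lt_succ_iff.1 (Finset.mem_range.1 ht'.2))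
      have htt1 : t.1 / p ^ t.2 = t'.1 / p ^ t'.2 := htt
      have hf : (t.1 / p ^ t.2).factorization p = (t'.1 / p ^ t'.2).factorization p := by rw [htt1]
      rw [Nat.factorization_div hd, Nat.factorization_div hd'] at hf
      simp only [Finsupp.coe_tsub, Pi.sub_apply, hp.factorization_pow, Finsupp.single_eq_same] at hf
      rw [h2, h2'] at hf
      have e1 := Nat.lt_succ_iff.1 (Finset.mem_range.1 ht.2)
      have e2 := Nat.lt_succ_iff.1 (Finset.mem_range.1 ht'.2)
      have e3 : t.2 = t'.2 := by omega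
      have e4 : t.1 = t'.1 := by
        rw [← Nat.div_mul_cancel hd, ← Nat.div_mul_cancel hd', htt1, e3]
      exact Prod.ext e4 e3
  rwa [Finset.card_product, Finset.card_range] at hinj

theorem fol_p {M p : ℕ} (n : ℕ) (hM : 0 < M) (hp : p.Prime) (hpM : p ∣ M) : FolBy (1 / ((n : ℝ) + 1)) (M ^ n).divisors p := by
  have h1 := fol_prime (N := M ^ n) (p := p) (X := (M ^ n).factorization p) (pow_pos hM n).ne' hp rfl
  have h2 : n ≤ (M ^ n).factorization p := by
    rw [Nat.factorization_pow]
    have h3 : 0 < M.factorization p := hp.factorization_pos_of_dvd hM.ne' hpM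
    show n ≤ n * M.factorization p
    exact Nat.le_mul_of_pos_right n h3
  unfold FolBy
  rw [one_div, inv_mul_eq_div, le_div_iff₀ (by positivity)]
  have h3 := (Nat.mul_le_mul_left ((M ^ n).divisors.filter fun e => p * e ∉ (M ^ n).divisors).card (Nat.add_le_add_right h2 1)).trans h1
  exact_mod_cast h3

theorem fol_list {M : ℕ} (n : ℕ) (hM : 0 < M) (l : List ℕ) (hl : ∀ p ∈ l, p.Prime ∧ p ∣ M) :
    FolBy (l.length / ((n : ℝ) + 1)) (M ^ n).divisors l.prod := by
  induction l with
  | nil =>
    unfold FolBy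
    have h1 : ((M ^ n).divisors.filter fun e => ([] : List ℕ).prod * e ∉ (M ^ n).divisors) = ∅ := by
      rw [filter_eq_empty_iff]
      intro e he
      rw [List.prod_nil, one_mul, not_not]
      exact he
    rw [h1]
    simp
  | cons p l ih =>
    have h1 := ih fun q hq => hl q (List.mem_cons_of_mem _ hq)
    obtain ⟨hp, hpM⟩ := hl p List.mem_cons_self
    have h2 : 0 < l.prod := by
      refine List.prod_pos fun q hq => ?_
      exact (hl q (List.mem_cons_of_mem _ hq)).1.pos
    have h3 := FolBy.mul h2 (fol_p n hM hp hpM) h1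
    rw [List.prod_cons]
    have h4 : (((p :: l).length : ℕ) : ℝ) / ((n : ℝ) + 1) = 1 / ((n : ℝ) + 1) + l.length / ((n : ℝ) + 1) := by
      rw [List.length_cons]
      push_cast
      ring
    rw [h4]
    exact h3

/-- BOX.  For every finite set of `s` and `κ > 0` there are `M₀`, `n₀` such that the divisors of `M ^ n` are almost invariant under
the multiplication by the `s`, for all multiples `M` of `M₀` and `n ≥ n₀`. -/
theorem box (S : Finset ℕ) (hS : ∀ s ∈ S, 0 < s) (κ : ℝ) (hκ : 0 < κ) : ∃ M₀ n₀ : ℕ, 0 < M₀ ∧ ∀ M n : ℕ, 0 < M → M₀ ∣ M →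
    n₀ ≤ n → ∀ s ∈ S, FolBy κ (M ^ n).divisors s := by
  refine ⟨∏ s ∈ S, s, ⌈(∑ s ∈ S, s.primeFactorsList.length) / κ⌉₊, Finset.prod_pos hS, fun M n hM hMd hn s hs => ?_⟩
  have h1 := fol_list n hM s.primeFactorsList fun p hp => by
    have h2 := Nat.prime_of_mem_primeFactorsList hp
    have h3 := Nat.dvd_of_mem_primeFactorsList hp
    exact ⟨h2, (h3.trans (Finset.dvd_prod_of_mem _ hs)).trans hMd⟩
  rw [Nat.prod_primeFactorsList (hS s hs).ne'] at h1
  unfold FolBy at *
  refine h1.trans (mul_le_mul_of_nonneg_right ?_ (Nat.cast_nonneg _))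
  rw [div_le_iff₀ (by positivity)]
  have h2 : ((∑ s ∈ S, s.primeFactorsList.length : ℕ) : ℝ) / κ ≤ n := by
    refine (Nat.le_ceil _).trans ?_
    push_cast at hn
    exact_mod_cast hn
  rw [div_le_iff₀ hκ] at h2
  have h3 : (s.primeFactorsList.length : ℝ) ≤ ((∑ s ∈ S, s.primeFactorsList.length : ℕ) : ℝ) := by
    exact_mod_cast Finset.single_le_sum (f := fun s : ℕ => s.primeFactorsList.length) (fun _ _ => Nat.zero_le _) hs
  nlinarith

end Pool.Agent.UA
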