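import Pool.Agent.UA.Tr
import Mathlib.Analysis.InnerProductSpace.JointEigenspace

/-! UNIFORM ALMOST ALL (helper76): Bohr sets of the affine group contain Bohr sets of characters. -/

set_option autoImplicit false

namespace Pool.Agent.UA

open Finset Filter Topology Pool.Agent.StrG

theorem rep_mul {n : ℕ} (π : Af →* Matrix.unitaryGroup (Fin n) ℂ) (x y : Af) :
    ((π (x * y) : Matrix.unitaryGroup (Fin n) ℂ) : Matrix (Fin n) (Fin n) ℂ) = (π x : Matrix _ _ ℂ) * (π y : Matrix _ _ ℂ) := by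
  rw [map_mul]
  rfl

theorem rep_slope {n : ℕ} (π : Af →* Matrix.unitaryGroup (Fin n) ℂ) {x y : Af} (h : x.d = y.d) :
    (π x : Matrix (Fin n) (Fin n) ℂ) = (π y : Matrix (Fin n) (Fin n) ℂ) := by
  have hd : del x.d x.pos = del y.d y.pos := by
    ext
    · rfl
    · exact h
  rw [eq_tau_del x, eq_tau_del y, rep_mul, rep_mul, tau_trivial, tau_trivial, hd]

theorem rep_comm {n : ℕ} (π : Af →* Matrix.unitaryGroup (Fin n) ℂ) (x y : Af) :
    (π x : Matrix (Fin n) (Fin n) ℂ) * (π y : Matrix (Fin n) (Fin n) ℂ) =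
      (π y : Matrix (Fin n) (Fin n) ℂ) * (π x : Matrix (Fin n) (Fin n) ℂ) := by
  rw [← rep_mul, ← rep_mul]
  refine rep_slope π ?_
  rw [Af.mul_d, Af.mul_d, mul_comm]

theorem rep_star {n : ℕ} (π : Af →* Matrix.unitaryGroup (Fin n) ℂ) (x : Af) :
    (π x : Matrix (Fin n) (Fin n) ℂ).conjTranspose = (π x⁻¹ : Matrix (Fin n) (Fin n) ℂ) := by
  rw [map_inv]
  rfl

/-- the operator of a matrix -/
noncomputable def op {n : ℕ} (A : Matrix (Fin n) (Fin n) ℂ) : EuclideanSpace ℂ (Fin n) →ₗ[ℂ] EuclideanSpace ℂ (Fin n) :=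
  Matrix.toEuclideanLin A

theorem op_mul {n : ℕ} (A B : Matrix (Fin n) (Fin n) ℂ) : op (A * B) = op A * op B := by
  apply LinearMap.ext
  intro v
  show op (A * B) v = op A (op B v)
  unfold op
  rw [Matrix.toEuclideanLin_apply, Matrix.toEuclideanLin_apply, Matrix.toEuclideanLin_apply]
  rw [← Matrix.mulVec_mulVec]

theorem op_add {n : ℕ} (A B : Matrix (Fin n) (Fin n) ℂ) : op (A + B) = op A + op B := by
  unfold op
  rw [map_add]

theorem op_sub {n : ℕ} (A B : Matrix (Fin n) (Fin n) ℂ) : op (A - B) = op A - op B := by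
  unfold op
  rw [map_sub]

theorem op_smul {n : ℕ} (c : ℂ) (A : Matrix (Fin n) (Fin n) ℂ) : op (c • A) = c • op A := by
  unfold op
  rw [map_smul]

/-- the Hermitian matrices attached to the representation -/
noncomputable def HH {n : ℕ} (π : Af →* Matrix.unitaryGroup (Fin n) ℂ) : Bool × Af → Matrix (Fin n) (Fin n) ℂ
  | (true, x) => (π x : Matrix (Fin n) (Fin n) ℂ) + (π x⁻¹ : Matrix (Fin n) (Fin n) ℂ)
  | (false, x) => Complex.I • ((π x : Matrix (Fin n) (Fin n) ℂ) - (π x⁻¹ : Matrix (Fin n) (Fin n) ℂ))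

theorem HH_herm {n : ℕ} (π : Af →* Matrix.unitaryGroup (Fin n) ℂ) (i : Bool × Af) : (HH π i).IsHermitian := by
  obtain ⟨b, x⟩ := i
  have h1 := rep_star π x
  have h2 := rep_star π x⁻¹
  rw [inv_inv] at h2
  cases b with
  | false =>
    show (Complex.I • ((π x : Matrix (Fin n) (Fin n) ℂ) - (π x⁻¹ : Matrix (Fin n) (Fin n) ℂ))).conjTranspose = _
    rw [Matrix.conjTranspose_smul, Matrix.conjTranspose_sub, h1, h2]
    show star Complex.I • _ = Complex.I • _
    have h3 : star Complex.I = -Complex.I := Complex.conj_I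
    rw [h3, neg_smul, ← smul_neg, neg_sub]
  | true =>
    show ((π x : Matrix (Fin n) (Fin n) ℂ) + (π x⁻¹ : Matrix (Fin n) (Fin n) ℂ)).conjTranspose = _
    rw [Matrix.conjTranspose_add, h1, h2]
    exact add_comm _ _

theorem HH_comm {n : ℕ} (π : Af →* Matrix.unitaryGroup (Fin n) ℂ) (i j : Bool × Af) : HH π i * HH π j = HH π j * HH π i := by
  obtain ⟨b, x⟩ := i
  obtain ⟨c, y⟩ := j
  have h1 := rep_comm π x y
  have h2 := rep_comm π x y⁻¹
  have h3 := rep_comm π x⁻¹ y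
  have h4 := rep_comm π x⁻¹ y⁻¹
  cases b <;> cases c <;> simp only [HH, Matrix.mul_add, Matrix.add_mul, Matrix.mul_sub, Matrix.sub_mul, Matrix.smul_mul,
    Matrix.mul_smul, h1, h2, h3, h4, smul_sub, smul_add] <;> abel

/-- a joint eigenvector -/
def JE {n : ℕ} (π : Af →* Matrix.unitaryGroup (Fin n) ℂ) (v : EuclideanSpace ℂ (Fin n)) : Prop :=
  v ≠ 0 ∧ ∀ x : Af, ∃ z : ℂ, op (π x : Matrix (Fin n) (Fin n) ℂ) v = z • v

theorem dec {n : ℕ} (π : Af →* Matrix.unitaryGroup (Fin n) ℂ) (w : EuclideanSpace ℂ (Fin n)) :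
    ∃ (m : ℕ) (v : Fin m → EuclideanSpace ℂ (Fin n)), (∀ i, JE π (v i)) ∧ w = ∑ i, v i := by
  have h0 := LinearMap.IsSymmetric.iSup_iInf_eq_top_of_commute (𝕜 := ℂ) (T := fun i => op (HH π i))
    (fun i => by
      have := Matrix.isHermitian_iff_isSymmetric.1 (HH_herm π i)
      exact this)
    (fun i j _ => by
      show op (HH π i) * op (HH π j) = op (HH π j) * op (HH π i)
      rw [← op_mul, ← op_mul, HH_comm])
  have hw : w ∈ ⨆ χ : Bool × Af → ℂ, ⨅ i, Module.End.eigenspace (op (HH π i)) (χ i) := by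
    rw [h0]
    exact Submodule.mem_top
  refine Submodule.iSup_induction (fun χ : Bool × Af → ℂ => ⨅ i, Module.End.eigenspace (op (HH π i)) (χ i))
    (motive := fun w => ∃ (m : ℕ) (v : Fin m → EuclideanSpace ℂ (Fin n)), (∀ i, JE π (v i)) ∧ w = ∑ i, v i) hw ?_ ?_ ?_
  · intro χ v hv
    by_cases h1 : v = 0
    · exact ⟨0, Fin.elim0, fun i => i.elim0, by simp [h1]⟩
    · refine ⟨1, fun _ => v, fun _ => ⟨h1, fun x => ?_⟩, by simp⟩
      rw [Submodule.mem_iInf] at hv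
      have h2 := Module.End.mem_eigenspace_iff.1 (hv (true, x))
      have h3 := Module.End.mem_eigenspace_iff.1 (hv (false, x))
      refine ⟨(χ (true, x) - Complex.I * χ (false, x)) / 2, ?_⟩
      have h4 : (π x : Matrix (Fin n) (Fin n) ℂ) = (2 : ℂ)⁻¹ • (HH π (true, x) - Complex.I • HH π (false, x)) := by
        simp only [HH]
        rw [smul_smul, Complex.I_mul_I, neg_one_smul, sub_neg_eq_add, add_add_sub_cancel, ← two_smul ℂ, smul_smul,
          inv_mul_cancel₀ two_ne_zero, one_smul]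
      rw [h4, op_smul, op_sub, op_smul]
      show (2 : ℂ)⁻¹ • (op (HH π (true, x)) v - Complex.I • op (HH π (false, x)) v) = _
      rw [h2, h3, smul_smul, ← sub_smul, smul_smul]
      congr 1
      ring
  · exact ⟨0, Fin.elim0, fun i => i.elim0, by simp⟩
  · rintro w w' ⟨m, v, hv, rfl⟩ ⟨m', v', hv', rfl⟩
    refine ⟨m + m', Fin.append v v', fun i => ?_, ?_⟩
    · refine Fin.addCases (fun i => ?_) (fun i => ?_) i
      · rw [Fin.append_left]
        exact hv i
      · rw [Fin.append_right]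
        exact hv' i
    · rw [Fin.sum_univ_add]
      simp only [Fin.append_left, Fin.append_right]

theorem op_single {n : ℕ} (A : Matrix (Fin n) (Fin n) ℂ) (i j : Fin n) : (op A (EuclideanSpace.single j 1)) i = A i j := by
  unfold op
  rw [Matrix.toEuclideanLin_apply]
  simp

theorem op_norm {n : ℕ} (A : Matrix.unitaryGroup (Fin n) ℂ) (v : EuclideanSpace ℂ (Fin n)) :
    ‖op (A : Matrix (Fin n) (Fin n) ℂ) v‖ = ‖v‖ := by
  have h1 : LinearMap.adjoint (op (A : Matrix (Fin n) (Fin n) ℂ)) = op (A : Matrix (Fin n) (Fin n) ℂ).conjTranspose :=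
    (Matrix.toEuclideanLin_conjTranspose_eq_adjoint _).symm
  have h2 : inner ℂ (op (A : Matrix (Fin n) (Fin n) ℂ) v) (op (A : Matrix (Fin n) (Fin n) ℂ) v) = inner ℂ v v := by
    rw [← LinearMap.adjoint_inner_right, h1]
    have h3 : op (A : Matrix (Fin n) (Fin n) ℂ).conjTranspose (op (A : Matrix (Fin n) (Fin n) ℂ) v) =
        op ((A : Matrix (Fin n) (Fin n) ℂ).conjTranspose * (A : Matrix (Fin n) (Fin n) ℂ)) v := by
      rw [op_mul]
      rfl
    have h4 : (A : Matrix (Fin n) (Fin n) ℂ).conjTranspose * (A : Matrix (Fin n) (Fin n) ℂ) = 1 :=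
      Matrix.mem_unitaryGroup_iff'.1 A.2
    rw [h3, h4]
    congr 1
    unfold op
    rw [Matrix.toEuclideanLin_apply, Matrix.one_mulVec]
  have h3 : ‖op (A : Matrix (Fin n) (Fin n) ℂ) v‖ ^ 2 = ‖v‖ ^ 2 := by
    rw [@norm_sq_eq_re_inner ℂ, @norm_sq_eq_re_inner ℂ, h2]
  exact (pow_left_inj₀ (norm_nonneg _) (norm_nonneg _) two_ne_zero).1 h3

/-- the character of a joint eigenvector -/
theorem JE.char {n : ℕ} {π : Af →* Matrix.unitaryGroup (Fin n) ℂ} {v : EuclideanSpace ℂ (Fin n)} (hv : JE π v) :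
    ∃ ψ : Af → ℂ, (∀ x, op (π x : Matrix (Fin n) (Fin n) ℂ) v = ψ x • v) ∧ (∀ x y, ψ (x * y) = ψ x * ψ y) ∧ ∀ x, ‖ψ x‖ = 1 := by
  obtain ⟨h0, h1⟩ := hv
  choose ψ hψ using h1
  refine ⟨ψ, hψ, fun x y => ?_, fun x => ?_⟩
  · have h2 : ψ (x * y) • v = (ψ x * ψ y) • v := by
      rw [← hψ (x * y), rep_mul, op_mul]
      show op _ (op _ v) = _
      rw [hψ y, map_smul, hψ x, smul_smul, mul_comm]
    exact smul_left_injective ℂ h0 h2
  · have h2 := op_norm (π x) v
    rw [hψ x, norm_smul] at h2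
    exact (mul_eq_right₀ (norm_ne_zero_iff.2 h0)).1 h2

/-- the Bohr set of finitely many characters -/
theorem isBohr_char {κ : Type} [Fintype κ] [DecidableEq κ] (ψ : κ → Af → ℂ) (h1 : ∀ i x y, ψ i (x * y) = ψ i x * ψ i y)
    (h2 : ∀ i x, ‖ψ i x‖ = 1) (ρ : ℝ) (hρ : 0 < ρ) : IsBohr {x : Af | ∀ i, ‖ψ i x - 1‖ < ρ} := by
  have hu : ∀ x, Matrix.diagonal (fun i => ψ i x) ∈ Matrix.unitaryGroup κ ℂ := by
    intro x
    rw [Matrix.mem_unitaryGroup_iff, Matrix.star_eq_conjTranspose, Matrix.diagonal_conjTranspose, Matrix.diagonal_mul_diagonal,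
      ← Matrix.diagonal_one]
    congr 1
    funext i
    show ψ i x * (starRingEnd ℂ) (ψ i x) = 1
    rw [Complex.mul_conj, Complex.normSq_eq_norm_sq, h2]
    norm_num
  have h3 := isBohr_near (MonoidHom.mk' (fun x => (⟨_, hu x⟩ : Matrix.unitaryGroup κ ℂ)) fun x y => Subtype.ext (by
    show Matrix.diagonal (fun i => ψ i (x * y)) = Matrix.diagonal (fun i => ψ i x) * Matrix.diagonal (fun i => ψ i y)
    rw [Matrix.diagonal_mul_diagonal]
    congr 1
    funext i
    exact h1 i x y)) ρ hρ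
  convert h3 using 1
  ext x
  constructor
  · intro h i j
    show ‖(Matrix.diagonal (fun i => ψ i x)) i j - (1 : Matrix κ κ ℂ) i j‖ < ρ
    by_cases hij : i = j
    · subst hij
      rw [Matrix.diagonal_apply_eq, Matrix.one_apply_eq]
      exact h i
    · rw [Matrix.diagonal_apply_ne _ hij, Matrix.one_apply_ne hij, sub_zero, norm_zero]
      exact hρ
  · intro h i
    have h4 : ‖(Matrix.diagonal (fun i => ψ i x)) i i - (1 : Matrix κ κ ℂ) i i‖ < ρ := h i i
    rw [Matrix.diagonal_apply_eq, Matrix.one_apply_eq] at h4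
    exact h4

/-- a Bohr set of the affine group contains the Bohr set of finitely many characters -/
theorem exists_chars {V : Set Af} (hV : IsBohr V) : ∃ (m : ℕ) (ψ : Fin m → Af → ℂ) (ρ : ℝ), 0 < ρ ∧
    (∀ i x y, ψ i (x * y) = ψ i x * ψ i y) ∧ (∀ i x, ‖ψ i x‖ = 1) ∧ {x : Af | ∀ i, ‖ψ i x - 1‖ < ρ} ⊆ V := by
  obtain ⟨n, π, ρ, hρ, rfl⟩ := hV
  choose m v hv hw using fun j : Fin n => dec π (EuclideanSpace.single j 1)
  choose ψ h1 h2 h3 using fun (j : Fin n) (i : Fin (m j)) => (hv j i).char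
  obtain ⟨C, hC⟩ : ∃ C : ℝ, C = ∑ j, ∑ i, ‖v j i‖ := ⟨_, rfl⟩
  have hC0 : 0 ≤ C := by
    rw [hC]
    exact Finset.sum_nonneg fun j _ => Finset.sum_nonneg fun i _ => norm_nonneg _
  obtain ⟨e, -⟩ : ∃ e : (Σ j : Fin n, Fin (m j)) ≃ Fin (Fintype.card (Σ j : Fin n, Fin (m j))), e = Fintype.equivFin _ := ⟨_, rfl⟩
  refine ⟨_, fun i => ψ (e.symm i).1 (e.symm i).2, ρ / (C + 1), by positivity, fun i => h2 _ _, fun i => h3 _ _, ?_⟩
  intro x hx i j
  have h4 : ∀ k : Fin (m j), ‖ψ j k x - 1‖ < ρ / (C + 1) := by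
    intro k
    have h5 : ‖ψ (e.symm (e ⟨j, k⟩)).1 (e.symm (e ⟨j, k⟩)).2 x - 1‖ < ρ / (C + 1) := hx (e ⟨j, k⟩)
    rw [e.symm_apply_apply] at h5
    exact h5
  have h5 : (π x : Matrix (Fin n) (Fin n) ℂ) i j - (1 : Matrix (Fin n) (Fin n) ℂ) i j =
      (∑ k, (ψ j k x - 1) • v j k : EuclideanSpace ℂ (Fin n)) i := by
    have h6 : op (π x : Matrix (Fin n) (Fin n) ℂ) (EuclideanSpace.single j 1) - EuclideanSpace.single j 1 =
        ∑ k, (ψ j k x - 1) • v j k := by
      rw [hw j, map_sum, ← Finset.sum_sub_distrib]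
      refine Finset.sum_congr rfl fun k _ => ?_
      rw [h1, sub_smul, one_smul]
    rw [← h6]
    show _ = (op (π x : Matrix (Fin n) (Fin n) ℂ) (EuclideanSpace.single j 1)) i - (EuclideanSpace.single j (1 : ℂ) : EuclideanSpace ℂ (Fin n)) i
    rw [op_single]
    congr 1
    rw [Matrix.one_apply]
    simp
  rw [h5]
  refine (PiLp.norm_apply_le _ i).trans_lt ?_
  refine (norm_sum_le _ _).trans_lt ?_
  have h6 : ∑ k, ‖(ψ j k x - 1) • v j k‖ ≤ ρ / (C + 1) * C := by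
    calc ∑ k, ‖(ψ j k x - 1) • v j k‖ ≤ ∑ k, ρ / (C + 1) * ‖v j k‖ := by
          refine Finset.sum_le_sum fun k _ => ?_
          rw [norm_smul]
          exact mul_le_mul_of_nonneg_right (h4 k).le (norm_nonneg _)
      _ = ρ / (C + 1) * ∑ k, ‖v j k‖ := by rw [Finset.mul_sum]
      _ ≤ ρ / (C + 1) * C := by
          refine mul_le_mul_of_nonneg_left ?_ (by positivity)
          rw [hC]
          exact Finset.single_le_sum (f := fun j => ∑ i, ‖v j i‖) (fun j _ => Finset.sum_nonneg fun i _ => norm_nonneg _) (Finset.mem_univ j)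
  refine h6.trans_lt ?_
  rw [div_mul_eq_mul_div, div_lt_iff₀ (by positivity)]
  nlinarith

end Pool.Agent.UA
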