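import Pool.Agent.UA.Af
import Pool.Agent.AA.NumA

/-! UNIFORM ALMOST ALL (helper76): the set of the bad maps has no clique. -/

set_option autoImplicit false

namespace Pool.Agent.UA

open Finset Filter Topology Pool.Agent.StrG

theorem af_inj {h h' : ℤ} {s s' : ℕ} (hs : 0 < s) (hs' : 0 < s') (e : af h s = af h' s') : h = h' ∧ s = s' := by
  have h1 := congrArg Af.a e
  have h2 := congrArg Af.d e
  rw [af_a h hs, af_a h' hs'] at h1
  rw [af_d h hs, af_d h' hs'] at h2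
  exact ⟨by exact_mod_cast h1, by exact_mod_cast h2⟩

/-- the bad maps with slope divisible by `P` -/
def BB (P : ℕ) : Set Af := {x | ∃ (h : ℤ) (s : ℕ), 0 < s ∧ P ∣ s ∧ x = af h s ∧ h ∈ AA.Bd s}

theorem no_clique_Af {k : ℕ} (hk : 1 ≤ k) (hD : AA.DH4 k) (x : Fin (4 * k) → Af)
    (hx : ∀ i j, i < j → x j * (x i)⁻¹ ∈ BB (4 * k).factorial) : False := by
  obtain ⟨P, hP⟩ : ∃ P, P = (4 * k).factorial := ⟨_, rfl⟩
  rw [← hP] at hx
  have hP0 : 0 < P := by rw [hP]; exact Nat.factorial_pos _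
  have h4k : 0 < 4 * k := by omega
  obtain ⟨o, ho⟩ : ∃ o : Fin (4 * k), o = ⟨0, h4k⟩ := ⟨_, rfl⟩
  obtain ⟨z, hz⟩ : ∃ z : Fin (4 * k) → Af, z = fun i => x i * ((x o)⁻¹ * af 1 P) := ⟨_, rfl⟩
  have hzo : ∀ i, ∃ (h : ℤ) (s : ℕ), 0 < s ∧ P ∣ s ∧ z i = af h s ∧ Int.gcd h s = 1 := by
    intro i
    by_cases hi : i = o
    · refine ⟨1, P, hP0, dvd_rfl, ?_, by simp⟩
      rw [hz, hi]
      show x o * ((x o)⁻¹ * af 1 P) = af 1 P
      rw [mul_inv_cancel_left]
    · have hlt : o < i := by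
        rw [ho, Fin.lt_def]
        have : i.1 ≠ 0 := fun h => hi (by rw [ho]; exact Fin.ext h)
        show 0 < i.1
        omega
      obtain ⟨h, s, hs, hPs, he, hb⟩ := hx o i hlt
      refine ⟨h + s * 1, s * P, Nat.mul_pos hs hP0, dvd_mul_left _ _, ?_, ?_⟩
      · rw [hz]
        show x i * ((x o)⁻¹ * af 1 P) = _
        rw [← mul_assoc, he, af_mul _ _ hs hP0]
      · have hg : Int.gcd h s = 1 := hb.1
        by_contra h3
        obtain ⟨q, hq, hqd⟩ := Nat.exists_prime_and_dvd h3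
        have h4 : (q : ℤ) ∣ h + s * 1 := (Int.natCast_dvd_natCast.mpr hqd).trans (Int.gcd_dvd_left _ _)
        have h5 : q ∣ s * P := by
          have := (Int.natCast_dvd_natCast.mpr hqd).trans (Int.gcd_dvd_right (h + s * 1) ((s * P : ℕ) : ℤ))
          exact_mod_cast this
        have h6 : q ∣ s := by
          rcases hq.dvd_mul.1 h5 with h6 | h6
          · exact h6
          · exact h6.trans hPs
        have h7 : (q : ℤ) ∣ (s : ℤ) * 1 := Dvd.dvd.mul_right (by exact_mod_cast h6) _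
        have h8 : (q : ℤ) ∣ h := by
          have := dvd_sub h4 h7
          rwa [add_sub_cancel_right] at this
        have h9 : (q : ℤ) ∣ (Int.gcd h s : ℤ) := Int.dvd_coe_gcd h8 (by exact_mod_cast h6)
        rw [hg] at h9
        exact hq.one_lt.ne' (Nat.dvd_one.mp (by exact_mod_cast h9))
  choose F lam hlam hPl hzi hF using hzo
  have hrel : ∀ i j, i < j → ∃ (a : ℤ) (d : ℕ), 0 < d ∧ P ∣ d ∧ a ∈ AA.Bd d ∧ lam j = d * lam i ∧ F j = a + d * F i := by
    intro i j hij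
    obtain ⟨a, d, hd, hPd, he, hb⟩ := hx i j hij
    have h1 : z j = af a d * z i := by
      rw [← he, hz]
      show x j * ((x o)⁻¹ * af 1 P) = x j * (x i)⁻¹ * (x i * ((x o)⁻¹ * af 1 P))
      group
    rw [hzi, hzi, af_mul _ _ hd (hlam i)] at h1
    obtain ⟨e1, e2⟩ := af_inj (hlam j) (Nat.mul_pos hd (hlam i)) h1
    exact ⟨a, d, hd, hPd, hb, e2, e1⟩
  refine AA.no_clique hk hD lam F hlam ?_ ?_ ?_ ?_ ?_
  · intro a b hab
    obtain ⟨_, d, _, _, _, e, _⟩ := hrel a b hab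
    exact ⟨d, by rw [e, mul_comm]⟩
  · intro a b hab
    obtain ⟨_, d, _, hPd, _, e, _⟩ := hrel a b hab
    rw [e, Nat.mul_div_cancel _ (hlam a)]
    refine dvd_trans ?_ hPd
    rw [hP]
    exact Nat.dvd_factorial (by norm_num) (by omega)
  · intro p hp hpk a
    refine dvd_trans ?_ (hPl a)
    rw [hP]
    exact Nat.dvd_factorial hp.pos hpk
  · intro a
    exact hF a
  · intro a b hab
    obtain ⟨c, d, _, _, hb, e, e'⟩ := hrel a b hab
    rw [e, Nat.mul_div_cancel _ (hlam a), e']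
    rw [add_sub_cancel_right]
    exact hb

end Pool.Agent.UA
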