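import Mathlib

/-! UNIFORM ALMOST ALL (helper76): the number of `k` in an interval with `a + k D` coprime to `D t`. -/

set_option autoImplicit false

namespace Pool.Agent.UA

open Finset

/-- the `k` of an interval with `a + k D` coprime to `D t` -/
noncomputable def KK (a : ℤ) (D t : ℕ) (x : ℤ) (X : ℕ) : Finset ℤ := (Ioc x (x + X)).filter fun k => Int.gcd (a + k * D) (D * t : ℕ) = 1

theorem exists_unit (a : ℤ) (D t : ℕ) (hD : 0 < D) (ht : 0 < t) (ha : Int.gcd a D = 1) :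
    ∃ k : ℤ, Int.gcd (a + k * D) (D * t : ℕ) = 1 := by
  have : NeZero (D * t) := ⟨(Nat.mul_pos hD ht).ne'⟩
  have : NeZero D := ⟨hD.ne'⟩
  have h1 : IsUnit (a : ZMod D) := by
    rw [ZMod.coe_int_isUnit_iff_isCoprime]
    exact (Int.isCoprime_iff_gcd_eq_one.2 ha).symm
  obtain ⟨u, hu⟩ := h1
  obtain ⟨v, hv⟩ := ZMod.unitsMap_surjective (dvd_mul_right D t) u
  obtain ⟨b, hb⟩ : ∃ b : ℕ, b = (v : ZMod (D * t)).val := ⟨_, rfl⟩
  have hb1 : Nat.Coprime b (D * t) := by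
    rw [hb]
    exact ZMod.val_coe_unit_coprime v
  have hb2 : ((b : ℕ) : ZMod D) = (a : ZMod D) := by
    rw [← hu, ← hv, hb]
    rw [ZMod.unitsMap_val]
    exact (ZMod.cast_eq_val _).symm
  have h3 : (D : ℤ) ∣ (b : ℤ) - a := by
    rw [← ZMod.intCast_zmod_eq_zero_iff_dvd]
    push_cast
    rw [hb2, sub_self]
  obtain ⟨k, hk⟩ := h3
  refine ⟨k, ?_⟩
  have h4 : a + k * D = (b : ℤ) := by linarith
  rw [h4, Int.gcd_natCast_natCast]
  exact hb1

theorem gcd_shift (a : ℤ) (D t : ℕ) (k h : ℤ) :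
    Int.gcd (a + (k + t * h) * D) (D * t : ℕ) = Int.gcd (a + k * D) (D * t : ℕ) := by
  have : a + (k + t * h) * D = (a + k * D) + ((D * t : ℕ) : ℤ) * h := by
    push_cast
    ring
  rw [this, Int.gcd_add_mul_left_left]

theorem card_KK (a : ℤ) (D t : ℕ) (hD : 0 < D) (ht : 0 < t) (ha : Int.gcd a D = 1) (x : ℤ) (X : ℕ) (hX : 2 * t ≤ X) :
    (X : ℝ) / (2 * t) ≤ (KK a D t x X).card := by
  obtain ⟨k0, hk0⟩ := exists_unit a D t hD ht ha
  have hsub : (Ioc x (x + X)).filter (fun k => k ≡ k0 [ZMOD t]) ⊆ KK a D t x X := by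
    intro k hk
    rw [mem_filter] at hk
    unfold KK
    rw [mem_filter]
    refine ⟨hk.1, ?_⟩
    obtain ⟨h, hh⟩ := (Int.modEq_iff_dvd.1 hk.2.symm)
    have : k = k0 + t * h := by linarith
    rw [this, gcd_shift]
    exact hk0
  have ht' : (0 : ℤ) < t := by exact_mod_cast ht
  have h1 := Int.Ioc_filter_modEq_card x (x + X) ht' k0
  have h2 := card_le_card hsub
  have htr : (0 : ℚ) < t := by exact_mod_cast ht
  have h3 : ((X : ℚ) / t - 1) ≤ (((Ioc x (x + X)).filter (fun k => k ≡ k0 [ZMOD t])).card : ℚ) := by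
    have h4 : (((Ioc x (x + X)).filter (fun k => k ≡ k0 [ZMOD t])).card : ℤ) =
      max (⌊((x + X : ℤ) - k0 : ℚ) / ((t : ℤ) : ℚ)⌋ - ⌊((x : ℤ) - k0 : ℚ) / ((t : ℤ) : ℚ)⌋) 0 := by
      rw [← h1]
    have h5 : ((((Ioc x (x + X)).filter (fun k => k ≡ k0 [ZMOD t])).card : ℤ) : ℚ) ≥
        ((⌊((x + X : ℤ) - k0 : ℚ) / ((t : ℤ) : ℚ)⌋ - ⌊((x : ℤ) - k0 : ℚ) / ((t : ℤ) : ℚ)⌋ : ℤ) : ℚ) := by
      rw [h4]
      exact_mod_cast le_max_left _ _
    have h6 := Int.lt_floor_add_one (((x + X : ℤ) - k0 : ℚ) / ((t : ℤ) : ℚ))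
    have h7 := Int.floor_le (((x : ℤ) - k0 : ℚ) / ((t : ℤ) : ℚ))
    have h8 : ((x + X : ℤ) - k0 : ℚ) / ((t : ℤ) : ℚ) - ((x : ℤ) - k0 : ℚ) / ((t : ℤ) : ℚ) = (X : ℚ) / t := by
      push_cast
      field_simp
      ring
    have h9 : ((((Ioc x (x + X)).filter (fun k => k ≡ k0 [ZMOD t])).card : ℤ) : ℚ) =
        (((Ioc x (x + X)).filter (fun k => k ≡ k0 [ZMOD t])).card : ℚ) := by push_cast; rfl
    rw [← h9]
    push_cast at h5 ⊢
    push_cast at h6 h7 h8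
    linarith
  have h4 : ((X : ℝ) / t - 1) ≤ (((Ioc x (x + X)).filter (fun k => k ≡ k0 [ZMOD t])).card : ℝ) := by
    have := (Rat.cast_le (K := ℝ)).2 h3
    push_cast at this
    exact this
  have h5 : (((Ioc x (x + X)).filter (fun k => k ≡ k0 [ZMOD t])).card : ℝ) ≤ (KK a D t x X).card := by exact_mod_cast h2
  have htR : (0 : ℝ) < t := by exact_mod_cast ht
  have h6 : (1 : ℝ) ≤ (X : ℝ) / (2 * t) := by
    rw [le_div_iff₀ (by positivity), one_mul]
    exact_mod_cast hX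
  have h7 : (X : ℝ) / t = X / (2 * t) + X / (2 * t) := by
    field_simp
    ring
  linarith

theorem KK_nonempty (a : ℤ) (D t : ℕ) (hD : 0 < D) (ht : 0 < t) (ha : Int.gcd a D = 1) (x : ℤ) (X : ℕ) (hX : 2 * t ≤ X) :
    (KK a D t x X).Nonempty := by
  rw [← card_pos]
  have h := card_KK a D t hD ht ha x X hX
  have htR : (0 : ℝ) < t := by exact_mod_cast ht
  have h6 : (1 : ℝ) ≤ (X : ℝ) / (2 * t) := by
    rw [le_div_iff₀ (by positivity), one_mul]
    exact_mod_cast hX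
  have h7 : (0 : ℝ) < (KK a D t x X).card := by linarith
  exact_mod_cast h7

/-- the same set for `t s`, if all primes of `s` divide `t` -/
theorem KK_mul (a : ℤ) (D t s : ℕ) (hs : ∀ p : ℕ, p.Prime → p ∣ s → p ∣ t) (x : ℤ) (X : ℕ) :
    KK a D (t * s) x X = KK a D t x X := by
  unfold KK
  refine filter_congr fun k _ => ?_
  rw [← Int.isCoprime_iff_gcd_eq_one, ← Int.isCoprime_iff_gcd_eq_one]
  constructor
  · intro h
    refine IsCoprime.of_isCoprime_of_dvd_right h ?_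
    exact_mod_cast Nat.mul_dvd_mul_left D (dvd_mul_right t s)
  · intro h
    rw [Int.isCoprime_iff_gcd_eq_one] at h ⊢
    by_contra h3
    obtain ⟨q, hq, hqd⟩ := Nat.exists_prime_and_dvd h3
    have h4 : (q : ℤ) ∣ a + k * D := (Int.natCast_dvd_natCast.mpr hqd).trans (Int.gcd_dvd_left _ _)
    have h5 : q ∣ D * (t * s) := by
      have := (Int.natCast_dvd_natCast.mpr hqd).trans (Int.gcd_dvd_right (a + k * D) ((D * (t * s) : ℕ) : ℤ))
      exact_mod_cast this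
    have h6 : q ∣ D * t := by
      rw [← mul_assoc] at h5
      rcases hq.dvd_mul.1 h5 with h6 | h6
      · exact h6
      · exact Dvd.dvd.mul_left (hs q hq h6) D
    have h7 : (q : ℤ) ∣ (Int.gcd (a + k * D) (D * t : ℕ) : ℤ) := Int.dvd_coe_gcd h4 (by exact_mod_cast h6)
    rw [h] at h7
    exact hq.one_lt.ne' (Nat.dvd_one.mp (by exact_mod_cast h7))

end Pool.Agent.UA
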