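import Pool.Agent.UA.Phi

/-! UNIFORM ALMOST ALL (helper76): from a null set on a Bohr set to finite sets. -/

set_option autoImplicit false

namespace Pool.Agent.UA

open Finset Filter Topology Pool.Agent.StrG

/-- the multipliers `e` for which the slope `D Q e` lies in `W` -/
noncomputable def EW (W : Set Af) (E : Finset ℕ) (D Q : ℕ) : Finset ℕ := by
  classical
  exact E.filter fun e => af 0 (D * (Q * e)) ∈ W

/-- the `k ∈ K` for which the map lies in `B` -/
noncomputable def KB (B : Set Af) (K : Finset ℤ) (a : ℤ) (D t : ℕ) : Finset ℤ := by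
  classical
  exact K.filter fun k => af (a + k * D) (D * t) ∈ B

theorem mem_EW (W : Set Af) (E : Finset ℕ) (D Q e : ℕ) : e ∈ EW W E D Q ↔ e ∈ E ∧ af 0 (D * (Q * e)) ∈ W := by
  classical
  unfold EW
  rw [mem_filter]

theorem mem_KB (B : Set Af) (K : Finset ℤ) (a : ℤ) (D t : ℕ) (k : ℤ) : k ∈ KB B K a D t ↔ k ∈ K ∧ af (a + k * D) (D * t) ∈ B := by
  classical
  unfold KB
  rw [mem_filter]

theorem core (B W : Set Af) (hn : NullR (B ∩ W)) (c0 : ℝ) (hc0 : 0 < c0) (hW : ∀ M : GMean Af, RInv M → c0 ≤ M.m (ind W))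
    (hslope : ∀ x y : Af, x.d = y.d → x ∈ W → y ∈ W) (ε : ℝ) (hε : 0 < ε) :
    ∃ (S : Finset ℕ) (δ : ℝ), (∀ s ∈ S, 0 < s) ∧ 0 < δ ∧ ∀ (E : Finset ℕ) (Q : ℕ), E.Nonempty → (∀ e ∈ E, 0 < e) →
      (∀ s ∈ S, AA.FolBy δ E s) → 0 < Q → (∀ e ∈ E, ∀ p : ℕ, p.Prime → p ∣ e → p ∣ Q) → ∃ H : ℕ, ∀ D : ℕ, 0 < D →
      (c0 / 2) * E.card ≤ (EW W E D Q).card ∧
      ∀ a : ℤ, Int.gcd a D = 1 → ∀ (x : ℤ) (X : ℕ), H ≤ X → ∃ K : Finset ℤ, K.Nonempty ∧ (∀ e ∈ E, KK a D (Q * e) x X = K) ∧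
        ∑ e ∈ EW W E D Q, ((KB B K a D (Q * e)).card : ℝ) ≤ ε * (EW W E D Q).card * K.card := by
  classical
  obtain ⟨F1, δ1, hF1, hδ1, h1⟩ := folner S0 closure_S0 (ind (B ∩ W)) (bd_ind _) 0 (fun M hM => (hn M hM).le) (ε * (c0 / 2)) (by positivity)
  obtain ⟨F2, δ2, hF2, hδ2, h2⟩ := folner S0 closure_S0 (fun x => (-1) * ind W x) ((bd_ind W).smul _) (-c0) (fun M hM => by
    rw [M.smul' _ _ (bd_ind W)]
    linarith [hW M hM]) (c0 / 2) (by positivity)
  obtain ⟨δ, hδ⟩ : ∃ δ, δ = min δ1 δ2 := ⟨_, rfl⟩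
  have hδ0 : 0 < δ := by rw [hδ]; exact lt_min hδ1 hδ2
  have hδ1' : δ ≤ δ1 := by rw [hδ]; exact min_le_left _ _
  have hδ2' : δ ≤ δ2 := by rw [hδ]; exact min_le_right _ _
  obtain ⟨S', hS'⟩ : ∃ S' : Finset ℕ, S' = (F1 ∪ F2).image fun g => g.d.num.toNat := ⟨_, rfl⟩
  have hsp : ∀ s ∈ S', 0 < s := by
    intro s hs
    rw [hS', mem_image] at hs
    obtain ⟨g, -, rfl⟩ := hs
    have := Rat.num_pos.2 g.pos
    omega
  refine ⟨S', δ, hsp, hδ0, fun E Q hEne hEpos hEf hQ0 hEQ => ?_⟩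
  have hfol : ∀ s : ℕ, 0 < s → af 0 s ∈ F1 ∪ F2 → ((E.filter fun e => s * e ∉ E).card : ℝ) ≤ δ * E.card := by
    intro s hs hmem
    refine hEf s ?_
    rw [hS', mem_image]
    refine ⟨_, hmem, ?_⟩
    rw [af_d 0 hs, Rat.num_natCast, Int.toNat_natCast]
  obtain ⟨N, hN⟩ : ∃ N, N = Q * ∑ e ∈ E, e := ⟨_, rfl⟩
  have hNe : ∀ e ∈ E, Q * e ≤ N := by
    intro e he
    rw [hN]
    exact Nat.mul_le_mul_left Q (Finset.single_le_sum (f := fun e => e) (fun _ _ => Nat.zero_le _) he)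
  obtain ⟨H, hH⟩ : ∃ H : ℕ, H = max (2 * Q) ⌈2 * Q * N / δ⌉₊ := ⟨_, rfl⟩
  refine ⟨H, fun D hD => ?_⟩
  obtain ⟨ED, hED⟩ : ∃ ED : Finset ℕ, ED = E.filter fun e => af 0 (D * (Q * e)) ∈ W := ⟨_, rfl⟩
  have hEW : EW W E D Q = ED := by
    ext e
    rw [mem_EW, hED, mem_filter]
  rw [hEW]
  -- the almost invariant set
  have key : ∀ a : ℤ, Int.gcd a D = 1 → ∀ (x : ℤ) (X : ℕ), H ≤ X → ∃ K : Finset ℤ, K.Nonempty ∧ (∀ e ∈ E, KK a D (Q * e) x X = K) ∧
      ((c0 / 2) * (K.card * E.card) ≤ K.card * ED.card) ∧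
      ∑ e ∈ ED, ((KB B K a D (Q * e)).card : ℝ) ≤ ε * (c0 / 2) * (K.card * E.card) := by
    intro a ha x X hX
    obtain ⟨K, hK⟩ : ∃ K, K = KK a D Q x X := ⟨_, rfl⟩
    have hX1 : 2 * Q ≤ X := (le_trans (by rw [hH]; exact le_max_left _ _) hX)
    have hX2 : 2 * Q * N / δ ≤ (X : ℝ) := by
      refine (Nat.le_ceil _).trans ?_
      have : ⌈2 * Q * N / δ⌉₊ ≤ X := le_trans (by rw [hH]; exact le_max_right _ _) hX
      exact_mod_cast this
    have hKne : K.Nonempty := by rw [hK]; exact KK_nonempty a D Q hD hQ0 ha x X hX1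
    have hKc := card_KK a D Q hD hQ0 ha x X hX1
    rw [← hK] at hKc
    have hNK : (N : ℝ) ≤ δ * K.card := by
      have hQr : (0 : ℝ) < Q := by exact_mod_cast hQ0
      rw [div_le_iff₀ hδ0] at hX2
      rw [div_le_iff₀ (by positivity)] at hKc
      have h3 : 2 * (Q : ℝ) * N ≤ 2 * Q * (δ * K.card) := by
        refine hX2.trans ?_
        have h4 := mul_le_mul_of_nonneg_right hKc hδ0.le
        linarith
      exact le_of_mul_le_mul_left h3 (by positivity)
    have hall : ∀ e ∈ E, KK a D (Q * e) x X = K := by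
      intro e he
      rw [hK]
      exact KK_mul a D Q e (hEQ e he) x X
    obtain ⟨Φ, hΦ⟩ : ∃ Φ, Φ = PH a D Q K E := ⟨_, rfl⟩
    have hΦc : Φ.card = K.card * E.card := by rw [hΦ]; exact card_PH a hD hQ0 K E hEpos
    have hΦne : Φ.Nonempty := by
      rw [← card_pos, hΦc]
      exact Nat.mul_pos hKne.card_pos hEne.card_pos
    have hinv : ∀ g ∈ F1 ∪ F2, (({s : Af | s ∈ Φ ∧ s * g ∉ Φ}.ncard : ℕ) : ℝ) ≤ δ * Φ.card := by
      intro g hg
      have hgS : g ∈ S0 := by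
        rcases mem_union.1 hg with h | h
        · exact hF1 h
        · exact hF2 h
      rw [hΦc]
      push_cast
      rcases hgS with rfl | ⟨s, hs, rfl⟩
      · have h3 := leave_trans a hD hQ0 x X E hEpos N hNe
        rw [← hK, ← hΦ] at h3
        calc (({s : Af | s ∈ Φ ∧ s * af 1 1 ∉ Φ}.ncard : ℕ) : ℝ) ≤ ((N * E.card : ℕ) : ℝ) := by exact_mod_cast h3
          _ = N * E.card := by push_cast; ring
          _ ≤ (δ * K.card) * E.card := mul_le_mul_of_nonneg_right hNK (Nat.cast_nonneg _)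
          _ = δ * (K.card * E.card) := by ring
      · have h3 := leave_dil a hD hQ0 K E hEpos s hs
        rw [← hΦ] at h3
        calc (({x : Af | x ∈ Φ ∧ x * af 0 s ∉ Φ}.ncard : ℕ) : ℝ) ≤ ((K.card * (E.filter fun e => s * e ∉ E).card : ℕ) : ℝ) := by
              exact_mod_cast h3
          _ = K.card * ((E.filter fun e => s * e ∉ E).card : ℝ) := by push_cast; ring
          _ ≤ K.card * (δ * E.card) := mul_le_mul_of_nonneg_left (hfol s hs hg) (Nat.cast_nonneg _)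
          _ = δ * (K.card * E.card) := by ring
    have hΦp : (0 : ℝ) ≤ Φ.card := Nat.cast_nonneg _
    have r1 := h1 Φ hΦne fun g hg => (hinv g (mem_union_left _ hg)).trans (mul_le_mul_of_nonneg_right hδ1' hΦp)
    have r2 := h2 Φ hΦne fun g hg => (hinv g (mem_union_right _ hg)).trans (mul_le_mul_of_nonneg_right hδ2' hΦp)
    have hmemW : ∀ e ∈ E, ∀ k : ℤ, (af (a + k * D) (D * (Q * e)) ∈ W ↔ af 0 (D * (Q * e)) ∈ W) := by
      intro e he k
      have hpos : 0 < D * (Q * e) := Nat.mul_pos hD (Nat.mul_pos hQ0 (hEpos e he))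
      have hd : (af (a + k * D) (D * (Q * e))).d = (af 0 (D * (Q * e))).d := by rw [af_d _ hpos, af_d _ hpos]
      exact ⟨hslope _ _ hd, hslope _ _ hd.symm⟩
    refine ⟨K, hKne, hall, ?_, ?_⟩
    · rw [hΦ, sum_PH a hD hQ0 K E hEpos, ← hΦ, hΦc] at r2
      have e1 : ∑ e ∈ E, ∑ k ∈ K, (-1) * ind W (af (a + k * D) (D * (Q * e))) = -(K.card * ED.card : ℝ) := by
        rw [hED, card_filter]
        push_cast
        rw [mul_sum, ← sum_neg_distrib]
        refine sum_congr rfl fun e he => ?_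
        rw [sum_congr rfl (fun k _ => by
          show (-1) * ind W (af (a + k * D) (D * (Q * e))) = if af 0 (D * (Q * e)) ∈ W then -1 else 0
          unfold ind
          rw [Set.indicator_apply]
          simp only [hmemW e he k]
          split_ifs <;> norm_num)]
        rw [sum_const, nsmul_eq_mul]
        split_ifs <;> ring
      rw [e1] at r2
      push_cast at r2
      linarith
    · rw [hΦ, sum_PH a hD hQ0 K E hEpos, ← hΦ, hΦc] at r1
      have e1 : ∑ e ∈ E, ∑ k ∈ K, ind (B ∩ W) (af (a + k * D) (D * (Q * e))) = ∑ e ∈ ED, ((KB B K a D (Q * e)).card : ℝ) := by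
        rw [hED, sum_filter]
        refine sum_congr rfl fun e he => ?_
        unfold KB
        rw [card_filter]
        push_cast
        split_ifs with hw
        · refine sum_congr rfl fun k _ => ?_
          unfold ind
          rw [Set.indicator_apply]
          simp only [Set.mem_inter_iff, hmemW e he k, hw, and_true]
        · refine sum_eq_zero fun k _ => ?_
          unfold ind
          rw [Set.indicator_apply]
          simp only [Set.mem_inter_iff, hmemW e he k, hw, and_false, if_false]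
      rw [e1] at r1
      push_cast at r1
      linarith
  have hshare : (c0 / 2) * E.card ≤ ED.card := by
    obtain ⟨K, hKne, -, h3, -⟩ := key 1 (by simp) 0 H le_rfl
    have hKp : (0 : ℝ) < K.card := by exact_mod_cast hKne.card_pos
    have h4 : (K.card : ℝ) * ((c0 / 2) * E.card) ≤ K.card * ED.card := by linarith
    exact le_of_mul_le_mul_left h4 hKp
  refine ⟨hshare, fun a ha x X hX => ?_⟩
  obtain ⟨K, hKne, hall, h3, h4⟩ := key a ha x X hX
  refine ⟨K, hKne, hall, h4.trans ?_⟩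
  have h5 := mul_le_mul_of_nonneg_left h3 hε.le
  linarith

end Pool.Agent.UA
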