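import Pool.Agent.UA.Core
import Pool.Agent.UA.Chr
import Pool.Agent.UA.Box

/-! UNIFORM ALMOST ALL (helper76): assembly. -/

set_option autoImplicit false

namespace Pool.Agent.UA

open Finset Filter Topology Pool.Agent.StrG

/-- the share of the good pairs -/
noncomputable def shr (a : ℤ) (D t : ℕ) (x : ℤ) (X : ℕ) : ℝ :=
  ({k : ℤ | x < k ∧ k ≤ x + X ∧ Int.gcd (a + k * D) (D * t : ℕ) = 1 ∧ 2 ∣ (a + k * D) * (D * t : ℕ) ∧
    AA.GI (a + k * D) (D * t : ℕ)}.ncard : ℝ) /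
  ({k : ℤ | x < k ∧ k ≤ x + X ∧ Int.gcd (a + k * D) (D * t : ℕ) = 1 ∧ 2 ∣ (a + k * D) * (D * t : ℕ)}.ncard : ℝ)

theorem shr_eq (a : ℤ) (D t P : ℕ) (x : ℤ) (X : ℕ) (hD : 0 < D) (ht : 0 < t) (h2P : 2 ∣ P) (hPt : P ∣ t) (K : Finset ℤ)
    (hK : KK a D t x X = K) (hKne : K.Nonempty) : shr a D t x X = 1 - ((KB (BB P) K a D t).card : ℝ) / K.card := by
  classical
  have hKp : (0 : ℝ) < K.card := by exact_mod_cast hKne.card_pos
  have hpos : 0 < D * t := Nat.mul_pos hD ht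
  have h2t : ∀ k : ℤ, (2 : ℤ) ∣ (a + k * D) * (D * t : ℕ) := by
    intro k
    refine Dvd.dvd.mul_left ?_ _
    have : 2 ∣ D * t := Dvd.dvd.mul_left (h2P.trans hPt) D
    exact_mod_cast this
  have e1 : {k : ℤ | x < k ∧ k ≤ x + X ∧ Int.gcd (a + k * D) (D * t : ℕ) = 1 ∧ 2 ∣ (a + k * D) * (D * t : ℕ)} = (K : Set ℤ) := by
    rw [← hK]
    ext k
    unfold KK
    rw [mem_coe, mem_filter, mem_Ioc]
    simp only [Set.mem_setOf_eq, h2t k, and_true, and_assoc]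
  have e2 : {k : ℤ | x < k ∧ k ≤ x + X ∧ Int.gcd (a + k * D) (D * t : ℕ) = 1 ∧ 2 ∣ (a + k * D) * (D * t : ℕ) ∧
              AA.GI (a + k * D) (D * t : ℕ)} = ((K \ KB (BB P) K a D t : Finset ℤ) : Set ℤ) := by
    ext k
    rw [mem_coe, Finset.mem_sdiff, mem_KB]
    have h3 : k ∈ K ↔ (x < k ∧ k ≤ x + X ∧ Int.gcd (a + k * D) (D * t : ℕ) = 1) := by
      rw [← hK]
      unfold KK
      rw [mem_filter, mem_Ioc, and_assoc]
    constructor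
    · rintro ⟨h4, h5, h6, -, h8⟩
      have hkK := h3.2 ⟨h4, h5, h6⟩
      refine ⟨hkK, ?_⟩
      rintro ⟨-, h, s, hs, -, he, hb⟩
      obtain ⟨h9, h10⟩ := af_inj hpos hs he
      rw [← h9, ← h10] at hb
      exact hb.2 h8
    · rintro ⟨hkK, hnot⟩
      obtain ⟨h4, h5, h6⟩ := h3.1 hkK
      refine ⟨h4, h5, h6, h2t k, ?_⟩
      by_contra h8
      exact hnot ⟨hkK, _, _, hpos, Dvd.dvd.mul_left hPt D, rfl, h6, h8⟩
  unfold shr
  rw [e1, e2, Set.ncard_coe_finset, Set.ncard_coe_finset]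
  have hsubK : KB (BB P) K a D t ⊆ K := fun k hk => ((mem_KB _ _ _ _ _ _).1 hk).1
  have h3 := card_sdiff_add_card_eq_card hsubK
  have h4 : ((K \ KB (BB P) K a D t).card : ℝ) = K.card - (KB (BB P) K a D t).card := by
    have : (((K \ KB (BB P) K a D t).card + (KB (BB P) K a D t).card : ℕ) : ℝ) = K.card := by exact_mod_cast h3
    push_cast at this
    linarith
  rw [h4, sub_div, div_self hKp.ne']

theorem main {k : ℕ} (hk : 1 ≤ k) (hD : AA.DH4 k) :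
    ∃ (m : ℕ) (χ : Fin m → ℕ → ℂ) (ρ c : ℝ), 0 < ρ ∧ 0 < c ∧ (∀ i a b, 0 < a → 0 < b → χ i (a * b) = χ i a * χ i b) ∧
      (∀ i a, ‖χ i a‖ = 1) ∧ ∀ ε : ℝ, 0 < ε → ∃ M₀ n₀ : ℕ, 0 < M₀ ∧ ∀ M n : ℕ, 0 < M → M₀ ∣ M → n₀ ≤ n → ∃ H : ℕ,
        ∀ D : ℕ, 0 < D → ∃ U : Finset ℕ, (∀ u, u ∈ U ↔ u ∣ M ^ n ∧ ∀ i, ‖χ i (D * (M * u)) - 1‖ < ρ) ∧
          c * (M ^ n).divisors.card ≤ U.card ∧
          ∀ a : ℤ, Int.gcd a D = 1 → ∀ (x : ℤ) (X : ℕ), H ≤ X → (1 - ε) * U.card ≤ ∑ u ∈ U, shr a D (M * u) x X := by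
  classical
  obtain ⟨P, hP⟩ : ∃ P, P = (4 * k).factorial := ⟨_, rfl⟩
  have hP0 : 0 < P := by rw [hP]; exact Nat.factorial_pos _
  have h2P : 2 ∣ P := by rw [hP]; exact Nat.dvd_factorial (by norm_num) (by omega)
  obtain ⟨V, hV, hVn⟩ := thmG (BB P) (4 * k) (by
    intro x
    by_contra hcon
    push Not at hcon
    refine no_clique_Af hk hD x fun i j hij => ?_
    rw [← hP]
    exact hcon i j hij)
  obtain ⟨m, ψ, ρ, hρ, hψm, hψ1, hsub⟩ := exists_chars hV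
  obtain ⟨W, hWdef⟩ : ∃ W : Set Af, W = {x : Af | ∀ i, ‖ψ i x - 1‖ < ρ} := ⟨_, rfl⟩
  have hWB : IsBohr W := by rw [hWdef]; exact isBohr_char ψ hψm hψ1 ρ hρ
  have hWn : NullR (BB P ∩ W) := by
    intro M hM
    refine le_antisymm ?_ (M.nonneg' _ (bd_ind _) fun x => (ind01 _ x).1)
    rw [← hVn M hM]
    refine M.mono (bd_ind _) (bd_ind _) fun x => ?_
    unfold ind
    refine Set.indicator_le_indicator_of_subset ?_ (fun _ => zero_le_one) x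
    rw [hWdef]
    exact Set.inter_subset_inter_right _ hsub
  obtain ⟨c0, hc0, hc0R, -⟩ := bohr_pos hWB
  refine ⟨m, fun i n => ψ i (af 0 n), ρ, c0 / 2, hρ, by positivity, ?_, fun i a => hψ1 i _, ?_⟩
  · intro i a b ha hb
    have h1 : af 0 (a * b) = af 0 a * af 0 b := by
      rw [af_mul _ _ ha hb, mul_zero, add_zero]
    show ψ i (af 0 (a * b)) = ψ i (af 0 a) * ψ i (af 0 b)
    rw [h1, hψm]
  intro ε hε
  obtain ⟨S, δ, hS, hδ, hcore⟩ := core (BB P) W hWn c0 hc0 hc0R (fun x y h hx => bohr_slope hWB h hx) ε hε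
  obtain ⟨M₁, n₀, hM₁, hbox⟩ := box S hS δ hδ
  refine ⟨P * M₁, n₀, Nat.mul_pos hP0 hM₁, fun M n hM hMd hn => ?_⟩
  have hPM : P ∣ M := (dvd_mul_right _ _).trans hMd
  have hne : (M ^ n).divisors.Nonempty := ⟨1, Nat.one_mem_divisors.2 (pow_pos hM n).ne'⟩
  have hpos : ∀ e ∈ (M ^ n).divisors, 0 < e := fun e he => Nat.pos_of_mem_divisors he
  obtain ⟨H, hH⟩ := hcore (M ^ n).divisors M hne hpos (hbox M n hM ((dvd_mul_left _ _).trans hMd) hn) hM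
    fun e he p hp hpe => hp.dvd_of_dvd_pow (hpe.trans (Nat.dvd_of_mem_divisors he))
  refine ⟨H, fun D hD0 => ?_⟩
  obtain ⟨h1, h2⟩ := hH D hD0
  refine ⟨EW W (M ^ n).divisors D M, fun u => ?_, h1, fun a ha x X hX => ?_⟩
  · rw [mem_EW, Nat.mem_divisors, hWdef]
    exact ⟨fun h => ⟨h.1.1, h.2⟩, fun h => ⟨⟨h.1, (pow_pos hM n).ne'⟩, h.2⟩⟩
  obtain ⟨K, hKne, hall, hsum⟩ := h2 a ha x X hX
  have hKp : (0 : ℝ) < K.card := by exact_mod_cast hKne.card_pos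
  have hterm : ∀ u ∈ EW W (M ^ n).divisors D M, shr a D (M * u) x X = 1 - ((KB (BB P) K a D (M * u)).card : ℝ) / K.card := by
    intro u hu
    rw [mem_EW] at hu
    exact shr_eq a D (M * u) P x X hD0 (Nat.mul_pos hM (hpos u hu.1)) h2P (Dvd.dvd.mul_right hPM u) K (hall u hu.1) hKne
  rw [sum_congr rfl hterm, sum_sub_distrib, sum_const, nsmul_eq_mul, mul_one, ← sum_div]
  have h5 : (∑ u ∈ EW W (M ^ n).divisors D M, ((KB (BB P) K a D (M * u)).card : ℝ)) / K.card ≤ ε * (EW W (M ^ n).divisors D M).card := by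
    rw [div_le_iff₀ hKp]
    exact hsum
  linarith

end Pool.Agent.UA
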