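import Pool.Agent.UA.Clq
import Pool.Agent.UA.Cnt
import Pool.Agent.StrG.Clique
import Pool.Agent.StrG.Ult
import Pool.Agent.AA.Fol

/-! UNIFORM ALMOST ALL (helper76): the almost invariant sets of affine maps. -/

set_option autoImplicit false

namespace Pool.Agent.UA

open Finset Filter Topology Pool.Agent.StrG

/-- generators -/
def S0 : Set Af := {x | x = af 1 1 ∨ ∃ s : ℕ, 0 < s ∧ x = af 0 s}

theorem closure_S0 : Subgroup.closure S0 = ⊤ := by
  have h1 : ∀ h : ℤ, af h 1 ∈ Subgroup.closure S0 := by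
    have hg : af 1 1 ∈ Subgroup.closure S0 := Subgroup.subset_closure (Or.inl rfl)
    have h2 : ∀ h : ℤ, af h 1 * af 1 1 = af (h + 1) 1 := by
      intro h
      rw [af_mul _ _ one_pos one_pos]
      norm_num
    intro h
    induction h using Int.induction_on with
    | zero => exact Subgroup.subset_closure (Or.inr ⟨1, one_pos, rfl⟩)
    | succ i hi =>
      rw [← h2]
      exact mul_mem hi hg
    | pred i hi =>
      have h3 := h2 (-(i : ℤ) - 1)
      rw [sub_add_cancel] at h3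
      have h4 : af (-(i : ℤ) - 1) 1 = af (-(i : ℤ)) 1 * (af 1 1)⁻¹ := by
        rw [← h3, mul_inv_cancel_right]
      rw [h4]
      exact mul_mem hi (inv_mem hg)
  rw [eq_top_iff, ← closure_SZ, Subgroup.closure_le]
  rintro x ⟨h, s, hs, rfl⟩
  have h3 : af h s = af h 1 * af 0 s := by
    rw [af_mul _ _ one_pos hs]
    congr 1
    · ring
    · ring
  rw [h3]
  exact mul_mem (h1 h) (Subgroup.subset_closure (Or.inr ⟨s, hs, rfl⟩))

/-- the map `(k, e) ↦ a + k D + D Q e x` -/
noncomputable def FF (a : ℤ) (D Q : ℕ) (p : ℤ × ℕ) : Af := af (a + p.1 * D) (D * (Q * p.2))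

/-- the finite set of affine maps -/
noncomputable def PH (a : ℤ) (D Q : ℕ) (K : Finset ℤ) (E : Finset ℕ) : Finset Af := by
  classical
  exact (K ×ˢ E).image (FF a D Q)

theorem FF_inj (a : ℤ) {D Q : ℕ} (hD : 0 < D) (hQ : 0 < Q) (K : Finset ℤ) (E : Finset ℕ) (hE : ∀ e ∈ E, 0 < e) :
    Set.InjOn (FF a D Q) (K ×ˢ E : Finset (ℤ × ℕ)) := by
  rintro ⟨k, e⟩ hp ⟨k', e'⟩ hp' h
  rw [mem_coe, mem_product] at hp hp'
  have hD' : (D : ℤ) ≠ 0 := by exact_mod_cast hD.ne'
  obtain ⟨h1, h2⟩ := af_inj (Nat.mul_pos hD (Nat.mul_pos hQ (hE e hp.2))) (Nat.mul_pos hD (Nat.mul_pos hQ (hE e' hp'.2))) h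
  have h3 : e = e' := Nat.eq_of_mul_eq_mul_left hQ (Nat.eq_of_mul_eq_mul_left hD h2)
  have h4 : k = k' := mul_right_cancel₀ hD' (add_left_cancel h1)
  rw [h3, h4]

theorem card_PH (a : ℤ) {D Q : ℕ} (hD : 0 < D) (hQ : 0 < Q) (K : Finset ℤ) (E : Finset ℕ) (hE : ∀ e ∈ E, 0 < e) :
    (PH a D Q K E).card = K.card * E.card := by
  classical
  unfold PH
  rw [card_image_of_injOn (FF_inj a hD hQ K E hE), card_product]

theorem sum_PH (a : ℤ) {D Q : ℕ} (hD : 0 < D) (hQ : 0 < Q) (K : Finset ℤ) (E : Finset ℕ) (hE : ∀ e ∈ E, 0 < e) (f : Af → ℝ) :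
    ∑ x ∈ PH a D Q K E, f x = ∑ e ∈ E, ∑ k ∈ K, f (af (a + k * D) (D * (Q * e))) := by
  classical
  unfold PH
  rw [sum_image (FF_inj a hD hQ K E hE), sum_product_right]
  rfl

/-- the number of elements leaving the set is at most the number of pairs leaving it -/
theorem leave_PH (a : ℤ) {D Q : ℕ} (K : Finset ℤ) (E : Finset ℕ) (g : Af) (R : Finset (ℤ × ℕ))
    (hR : ∀ k ∈ K, ∀ e ∈ E, (k, e) ∉ R → FF a D Q (k, e) * g ∈ PH a D Q K E) :
    {s : Af | s ∈ PH a D Q K E ∧ s * g ∉ PH a D Q K E}.ncard ≤ R.card := by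
  classical
  have h1 : {s : Af | s ∈ PH a D Q K E ∧ s * g ∉ PH a D Q K E} ⊆ ((R.image (FF a D Q) : Finset Af) : Set Af) := by
    rintro s ⟨hs, hsg⟩
    have hs' := hs
    unfold PH at hs'
    rw [mem_image] at hs'
    obtain ⟨⟨k, e⟩, hp, rfl⟩ := hs'
    rw [mem_product] at hp
    rw [mem_coe, mem_image]
    refine ⟨(k, e), ?_, rfl⟩
    by_contra h2
    exact hsg (hR k hp.1 e hp.2 h2)
  refine (Set.ncard_le_ncard h1 (Finset.finite_toSet _)).trans ?_
  rw [Set.ncard_coe_finset]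
  exact card_image_le

/-- shift by a dilation -/
theorem leave_dil (a : ℤ) {D Q : ℕ} (hD : 0 < D) (hQ : 0 < Q) (K : Finset ℤ) (E : Finset ℕ) (hE : ∀ e ∈ E, 0 < e) (s : ℕ) (hs : 0 < s) :
    {x : Af | x ∈ PH a D Q K E ∧ x * af 0 s ∉ PH a D Q K E}.ncard ≤ K.card * (E.filter fun e => s * e ∉ E).card := by
  classical
  rw [← card_product]
  refine leave_PH a K E (af 0 s) _ fun k hk e he hR => ?_
  rw [mem_product, mem_filter] at hR
  push Not at hR
  have h1 : s * e ∈ E := hR hk he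
  have h2 : FF a D Q (k, e) * af 0 s = FF a D Q (k, s * e) := by
    unfold FF
    rw [af_mul _ _ (Nat.mul_pos hD (Nat.mul_pos hQ (hE e he))) hs]
    congr 1
    · ring
    · ring
  rw [h2]
  unfold PH
  exact mem_image_of_mem _ (mem_product.2 ⟨hk, h1⟩)

/-- shift by the translation -/
theorem leave_trans (a : ℤ) {D Q : ℕ} (hD : 0 < D) (hQ : 0 < Q) (x : ℤ) (X : ℕ) (E : Finset ℕ) (hE : ∀ e ∈ E, 0 < e)
    (N : ℕ) (hN : ∀ e ∈ E, Q * e ≤ N) :
    {y : Af | y ∈ PH a D Q (KK a D Q x X) E ∧ y * af 1 1 ∉ PH a D Q (KK a D Q x X) E}.ncard ≤ N * E.card := by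
  classical
  have hc : (Ioc (x + X - N) (x + X) : Finset ℤ).card = N := by
    rw [Int.card_Ioc]
    omega
  calc _ ≤ ((Ioc (x + X - N) (x + X) : Finset ℤ) ×ˢ E).card := by
        refine leave_PH a _ E (af 1 1) _ fun k hk e he hR => ?_
        rw [mem_product] at hR
        push Not at hR
        have h1 : k ∉ (Ioc (x + X - N) (x + X) : Finset ℤ) := fun h => hR h he
        unfold KK at hk
        rw [mem_filter, mem_Ioc] at hk
        rw [mem_Ioc] at h1
        push Not at h1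
        have h2 : k ≤ x + X - N := by
          by_contra h3
          push Not at h3
          have := h1 h3
          omega
        have hQe : ((Q * e : ℕ) : ℤ) ≤ N := by exact_mod_cast hN e he
        have h3 : FF a D Q (k, e) * af 1 1 = FF a D Q (k + (Q * e : ℕ), e) := by
          unfold FF
          rw [af_mul _ _ (Nat.mul_pos hD (Nat.mul_pos hQ (hE e he))) one_pos]
          congr 1
          · push_cast
            ring
          · ring
        rw [h3]
        unfold PH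
        refine mem_image_of_mem _ (mem_product.2 ⟨?_, he⟩)
        show k + (Q * e : ℕ) ∈ KK a D Q x X
        unfold KK
        rw [mem_filter, mem_Ioc]
        refine ⟨⟨by have : (0 : ℤ) ≤ (Q * e : ℕ) := Int.natCast_nonneg _; omega, by omega⟩, ?_⟩
        have h4 := gcd_shift a D Q k e
        have h5 : (k + ((Q * e : ℕ) : ℤ)) = k + Q * e := by push_cast; ring
        rw [h5, h4]
        exact hk.2
    _ = N * E.card := by rw [card_product, hc]

end Pool.Agent.UA
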