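import Pool.Agent.UA.Af

/-! UNIFORM ALMOST ALL (helper76): finite dimensional unitary representations of the affine group are trivial on the translations, so
Bohr sets depend only on the slope. -/

set_option autoImplicit false

namespace Pool.Agent.UA

open Finset Filter Topology Pool.Agent.StrG

/-- square of the Hilbert-Schmidt norm -/
private noncomputable def fn {n : ℕ} (X : Matrix (Fin n) (Fin n) ℂ) : ℝ := (Matrix.trace (X.conjTranspose * X)).re

private theorem fn_eq {n : ℕ} (X : Matrix (Fin n) (Fin n) ℂ) : fn X = ∑ j, ∑ i, ‖X i j‖ ^ 2 := by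
  unfold fn Matrix.trace
  simp only [Matrix.diag_apply, Matrix.mul_apply, Matrix.conjTranspose_apply, Complex.re_sum]
  refine Finset.sum_congr rfl fun j _ => Finset.sum_congr rfl fun i _ => ?_
  rw [mul_comm, Complex.star_def, Complex.mul_conj, Complex.normSq_eq_norm_sq]
  exact Complex.ofReal_re _

private theorem fn_left {n : ℕ} (U X : Matrix (Fin n) (Fin n) ℂ) (hU : U.conjTranspose * U = 1) : fn (U * X) = fn X := by
  unfold fn
  rw [Matrix.conjTranspose_mul, Matrix.mul_assoc, ← Matrix.mul_assoc _ U X, hU, Matrix.one_mul]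

private theorem fn_right {n : ℕ} (U X : Matrix (Fin n) (Fin n) ℂ) (hU : U * U.conjTranspose = 1) :
    fn (X * U) = fn X := by
  unfold fn
  rw [Matrix.conjTranspose_mul, Matrix.mul_assoc, Matrix.trace_mul_comm, Matrix.mul_assoc, Matrix.mul_assoc, hU,
    Matrix.mul_one]

private theorem coe_mul {n : ℕ} (π : Af →* Matrix.unitaryGroup (Fin n) ℂ) (x y : Af) :
    ((π (x * y) : Matrix.unitaryGroup (Fin n) ℂ) : Matrix (Fin n) (Fin n) ℂ) = (π x : Matrix _ _ ℂ) * (π y : Matrix _ _ ℂ) := by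
  rw [map_mul]
  rfl

private theorem coe_inv {n : ℕ} (π : Af →* Matrix.unitaryGroup (Fin n) ℂ) (x : Af) :
    ((π x⁻¹ : Matrix.unitaryGroup (Fin n) ℂ) : Matrix (Fin n) (Fin n) ℂ) = (π x : Matrix _ _ ℂ).conjTranspose := by
  rw [map_inv]
  rfl

private theorem cu {n : ℕ} (U : Matrix.unitaryGroup (Fin n) ℂ) :
    (U : Matrix (Fin n) (Fin n) ℂ).conjTranspose * (U : Matrix (Fin n) (Fin n) ℂ) = 1 :=
  Matrix.mem_unitaryGroup_iff'.1 U.2

private theorem uc {n : ℕ} (U : Matrix.unitaryGroup (Fin n) ℂ) :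
    (U : Matrix (Fin n) (Fin n) ℂ) * (U : Matrix (Fin n) (Fin n) ℂ).conjTranspose = 1 :=
  Matrix.mem_unitaryGroup_iff.1 U.2

private theorem cu' {n : ℕ} (U : Matrix.unitaryGroup (Fin n) ℂ) :
    (U : Matrix (Fin n) (Fin n) ℂ).conjTranspose.conjTranspose * (U : Matrix (Fin n) (Fin n) ℂ).conjTranspose = 1 := by
  rw [Matrix.conjTranspose_conjTranspose]
  exact uc U

private theorem fn_tau {n : ℕ} (π : Af →* Matrix.unitaryGroup (Fin n) ℂ) (a : ℚ) (s : ℕ) (hs : 0 < s) :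
    fn ((π (tau (s * a)) : Matrix (Fin n) (Fin n) ℂ) - 1) = fn ((π (tau a) : Matrix (Fin n) (Fin n) ℂ) - 1) := by
  have hs' : (0 : ℚ) < s := by exact_mod_cast hs
  rw [← del_conj a s hs', coe_mul, coe_mul, coe_inv]
  have h1 : (π (del s hs') : Matrix (Fin n) (Fin n) ℂ) * (π (tau a) : Matrix (Fin n) (Fin n) ℂ) *
      (π (del s hs') : Matrix (Fin n) (Fin n) ℂ).conjTranspose - 1 =
      (π (del s hs') : Matrix (Fin n) (Fin n) ℂ) * ((π (tau a) : Matrix (Fin n) (Fin n) ℂ) - 1) *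
      (π (del s hs') : Matrix (Fin n) (Fin n) ℂ).conjTranspose := by
    rw [Matrix.mul_sub, Matrix.sub_mul, Matrix.mul_one, uc]
  rw [h1, fn_right _ _ (by rw [Matrix.conjTranspose_conjTranspose]; exact cu _), fn_left _ _ (cu _)]

private theorem recur {n : ℕ} (z : ℕ → Fin n → Fin n → ℂ) (hz : ∀ k i j, ‖z k i j‖ ≤ 1) (δ : ℝ) (hδ : 0 < δ) :
    ∃ k l : ℕ, k < l ∧ ∀ i j, ‖z l i j - z k i j‖ < δ := by
  have hb : Bornology.IsBounded (Metric.closedBall (0 : Fin n → Fin n → ℂ) 1) := Metric.isBounded_closedBall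
  obtain ⟨a, -, φ, hφ, ha⟩ := tendsto_subseq_of_bounded hb (x := z) (fun k => by
    rw [mem_closedBall_zero_iff, pi_norm_le_iff_of_nonneg zero_le_one]
    intro i
    rw [pi_norm_le_iff_of_nonneg zero_le_one]
    exact hz k i)
  have h1 : CauchySeq (z ∘ φ) := ha.cauchySeq
  rw [Metric.cauchySeq_iff] at h1
  obtain ⟨N, hN⟩ := h1 δ hδ
  refine ⟨φ N, φ (N + 1), hφ (Nat.lt_succ_self N), fun i j => ?_⟩
  have h2 := hN (N + 1) (Nat.le_succ N) N le_rfl
  rw [dist_eq_norm] at h2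
  have h3 : ‖(z ∘ φ) (N + 1) i j - (z ∘ φ) N i j‖ ≤ ‖(z ∘ φ) (N + 1) - (z ∘ φ) N‖ := by
    have h4 := norm_le_pi_norm ((z ∘ φ) (N + 1) - (z ∘ φ) N) i
    have h5 := norm_le_pi_norm (((z ∘ φ) (N + 1) - (z ∘ φ) N) i) j
    exact h5.trans h4
  exact h3.trans_lt h2

/-- finite dimensional unitary representations are trivial on the translations -/
theorem tau_trivial {n : ℕ} (π : Af →* Matrix.unitaryGroup (Fin n) ℂ) (a : ℚ) :
    (π (tau a) : Matrix (Fin n) (Fin n) ℂ) = 1 := by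
  obtain ⟨c, hc⟩ : ∃ c, c = fn ((π (tau a) : Matrix (Fin n) (Fin n) ℂ) - 1) := ⟨_, rfl⟩
  have hsmall : ∀ δ : ℝ, 0 < δ → c ≤ n * (n * δ ^ 2) := by
    intro δ hδ
    obtain ⟨k, l, hkl, hs⟩ := recur (fun k i j => (π (tau (k * a)) : Matrix (Fin n) (Fin n) ℂ) i j)
      (fun k i j => entry_norm_bound_of_unitary (π (tau (k * a))).2 i j) δ hδ
    have h1 : (π (tau (((l - k : ℕ) : ℚ) * a)) : Matrix (Fin n) (Fin n) ℂ) - 1 =
        (π (tau (k * a)) : Matrix (Fin n) (Fin n) ℂ).conjTranspose *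
          ((π (tau (l * a)) : Matrix (Fin n) (Fin n) ℂ) - (π (tau (k * a)) : Matrix (Fin n) (Fin n) ℂ)) := by
      rw [Matrix.mul_sub, cu, ← coe_inv, ← coe_mul, tau_inv, tau_add]
      congr 4
      rw [Nat.cast_sub hkl.le]
      ring
    have h2 := fn_tau π a (l - k) (by omega)
    rw [h1, ← hc, fn_left _ _ (cu' _), fn_eq] at h2
    rw [← h2]
    refine (Finset.sum_le_sum (g := fun _ => (n : ℝ) * δ ^ 2) fun j _ => ?_).trans (le_of_eq ?_)
    · refine (Finset.sum_le_sum (g := fun _ => δ ^ 2) fun i _ => ?_).trans (le_of_eq ?_)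
      · have h3 := hs i j
        rw [Matrix.sub_apply]
        exact pow_le_pow_left₀ (norm_nonneg _) h3.le 2
      · rw [Finset.sum_const, Finset.card_univ, Fintype.card_fin, nsmul_eq_mul]
    · rw [Finset.sum_const, Finset.card_univ, Fintype.card_fin, nsmul_eq_mul]
  have hc0 : c ≤ 0 := by
    refine le_of_forall_pos_le_add fun ε hε => ?_
    have h1 := hsmall (√(ε / (n ^ 2 + 1))) (Real.sqrt_pos.2 (by positivity))
    rw [Real.sq_sqrt (by positivity)] at h1
    refine h1.trans ?_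
    rw [zero_add]
    have h2 : (n : ℝ) * (n * (ε / (n ^ 2 + 1))) = (n ^ 2 / (n ^ 2 + 1)) * ε := by ring
    rw [h2]
    refine mul_le_of_le_one_left hε.le ?_
    rw [div_le_one (by positivity)]
    linarith
  rw [hc, fn_eq] at hc0
  have h3 : ∀ j ∈ (Finset.univ : Finset (Fin n)), ∀ i ∈ (Finset.univ : Finset (Fin n)),
      ‖((π (tau a) : Matrix (Fin n) (Fin n) ℂ) - 1) i j‖ ^ 2 = 0 := by
    have h4 := (Finset.sum_eq_zero_iff_of_nonneg (fun j _ => Finset.sum_nonneg fun i _ => sq_nonneg _)).1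
      (le_antisymm hc0 (Finset.sum_nonneg fun j _ => Finset.sum_nonneg fun i _ => sq_nonneg _))
    intro j hj i hi
    exact (Finset.sum_eq_zero_iff_of_nonneg (fun i _ => sq_nonneg _)).1 (h4 j hj) i hi
  rw [← sub_eq_zero]
  ext i j
  have h5 := h3 j (Finset.mem_univ j) i (Finset.mem_univ i)
  have h6 : ‖((π (tau a) : Matrix (Fin n) (Fin n) ℂ) - 1) i j‖ = 0 := by
    exact pow_eq_zero_iff (two_ne_zero) |>.1 h5
  rw [norm_eq_zero] at h6
  rw [h6]
  rfl

/-- Bohr sets depend only on the slope -/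
theorem bohr_slope {V : Set Af} (hV : IsBohr V) {x y : Af} (h : x.d = y.d) (hx : x ∈ V) : y ∈ V := by
  obtain ⟨n, π, ρ, hρ, rfl⟩ := hV
  have hd : del x.d x.pos = del y.d y.pos := by
    ext
    · rfl
    · exact h
  have e : (π x : Matrix (Fin n) (Fin n) ℂ) = (π y : Matrix (Fin n) (Fin n) ℂ) := by
    rw [eq_tau_del x, eq_tau_del y, coe_mul, coe_mul, tau_trivial, tau_trivial, hd]
  intro i j
  rw [← e]
  exact hx i j

end Pool.Agent.UA
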